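import Pool.Agent.L7h39.TV.Defs

set_option autoImplicit false

/-!
# Graphs with gains: basic facts on walks and flows (helper80 for helper39)
-/

namespace Pool.Agent.L7h80.TV

open Finset Pool.Agent.L7h39.TV

variable {E N : Type}

section walks

variable {tl hd : E → Option N}

theorem wk_append {v u w : N} {l l' : List E} (h : Wk tl hd v l u) (h' : Wk tl hd u l' w) :
    Wk tl hd v (l ++ l') w := by
  induction h with
  | nil v => exact h'
  | cons h1 h2 _ ih => exact Wk.cons h1 h2 (ih h')

theorem wk_split {l l' : List E} : ∀ {v w : N}, Wk tl hd v (l ++ l') w →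
    ∃ u, Wk tl hd v l u ∧ Wk tl hd u l' w := by
  induction l with
  | nil => exact fun {v w} h => ⟨v, Wk.nil v, h⟩
  | cons f l ih =>
    intro v w h
    rw [List.cons_append] at h
    cases h with
    | cons h1 h2 h3 =>
      obtain ⟨u, h4, h5⟩ := ih h3
      exact ⟨u, Wk.cons h1 h2 h4, h5⟩

theorem dup (l : List E) (h : ¬ l.Nodup) : ∃ f l1 l2 l3, l = l1 ++ f :: (l2 ++ f :: l3) := by
  induction l with
  | nil => exact absurd List.nodup_nil h
  | cons a l ih =>
    by_cases ha : a ∈ l
    · obtain ⟨l2, l3, rfl⟩ := List.append_of_mem ha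
      exact ⟨a, [], l2, l3, rfl⟩
    · have h1 : ¬ l.Nodup := fun h' => h (List.nodup_cons.2 ⟨ha, h'⟩)
      obtain ⟨f, l1, l2, l3, rfl⟩ := ih h1
      exact ⟨f, a :: l1, l2, l3, rfl⟩

/-- a walk can be shortened so that no arc is repeated and only the last node is the end -/
theorem short {v w : N} (S : E → Prop) : ∀ (n : ℕ) (P : List E), P.length = n → Wk tl hd v P w →
    (∀ f ∈ P, S f) →
    ∃ P', Wk tl hd v P' w ∧ (∀ f ∈ P', S f) ∧ P'.Nodup ∧ ∀ f ∈ P', tl f ≠ some w := by
  intro n
  induction n using Nat.strong_induction_on with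
  | _ n ih =>
    intro P hn hP hS
    by_cases h1 : P.Nodup
    · by_cases h2 : ∀ f ∈ P, tl f ≠ some w
      · exact ⟨P, hP, hS, h1, h2⟩
      · push Not at h2
        obtain ⟨f, hf, hfw⟩ := h2
        obtain ⟨P1, P2, rfl⟩ := List.append_of_mem hf
        obtain ⟨u, h3, h4⟩ := wk_split hP
        cases h4 with
        | cons h5 h6 h7 =>
          have h8 : u = w := Option.some.inj (h5.symm.trans hfw)
          subst h8
          refine ih P1.length ?_ P1 rfl h3 (fun f hf => hS f (List.mem_append_left _ hf))
          rw [← hn, List.length_append, List.length_cons]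
          omega
    · obtain ⟨f, P1, P2, P3, rfl⟩ := dup P h1
      obtain ⟨u, h3, h4⟩ := wk_split hP
      cases h4 with
      | cons h5 h6 h7 =>
        obtain ⟨x, h8, h9⟩ := wk_split h7
        cases h9 with
        | cons h10 h11 h12 =>
          have h13 : u = x := Option.some.inj (h5.symm.trans h10)
          subst h13
          refine ih (P1 ++ f :: P3).length ?_ _ rfl (wk_append h3 (Wk.cons h10 h11 h12)) ?_
          · rw [← hn]
            simp only [List.length_append, List.length_cons]
            omega
          · intro f' hf'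
            apply hS
            simp only [List.mem_append, List.mem_cons] at hf' ⊢
            tauto

end walks

section lists

theorem wt_cons (k : E → ℝ) (f : E) (l : List E) : wt k (f :: l) = k f * wt k l := by
  unfold wt
  rw [List.map_cons, List.prod_cons]

theorem wt_nil (k : E → ℝ) : wt k [] = 1 := rfl

theorem wt_pos {k : E → ℝ} (hk : ∀ f, 0 < k f) (l : List E) : 0 < wt k l := by
  induction l with
  | nil => rw [wt_nil]; exact one_pos
  | cons f l ih => rw [wt_cons]; exact mul_pos (hk f) ih

theorem sml_nonneg {g c : E → ℝ} (hg : ∀ f, 0 < g f) (hc : ∀ f, 0 ≤ c f) (l : List E) :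
    0 ≤ sml g c l := by
  induction l with
  | nil => exact le_rfl
  | cons f l ih => exact add_nonneg (hc f) (mul_nonneg (hg f).le ih)

variable [DecidableEq E]

theorem vec_nil (g : E → ℝ) (f : E) : vec g [] f = 0 := rfl

theorem vec_cons (g : E → ℝ) (f : E) (l : List E) (f' : E) :
    vec g (f :: l) f' = (if f' = f then 1 else 0) + g f * vec g l f' := by
  change (Pi.single f (1 : ℝ) + g f • vec g l : E → ℝ) f' = _
  rw [Pi.add_apply, Pi.smul_apply, smul_eq_mul, Pi.single_apply]

theorem vec_nonneg {g : E → ℝ} (hg : ∀ f, 0 < g f) (l : List E) (f : E) : 0 ≤ vec g l f := by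
  induction l with
  | nil => exact le_rfl
  | cons f' l ih =>
    rw [vec_cons]
    have := mul_nonneg (hg f').le ih
    split_ifs <;> linarith

theorem vec_pos {g : E → ℝ} (hg : ∀ f, 0 < g f) {l : List E} {f : E} (hf : f ∈ l) :
    0 < vec g l f := by
  induction l with
  | nil => exact absurd hf List.not_mem_nil
  | cons f' l ih =>
    rw [vec_cons]
    have h1 := mul_nonneg (hg f').le (vec_nonneg hg l f)
    rcases List.mem_cons.1 hf with h | h
    · rw [if_pos h]
      linarith
    · have h2 := mul_pos (hg f') (ih h)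
      split_ifs <;> linarith

theorem vec_zero {g : E → ℝ} {l : List E} {f : E} (hf : f ∉ l) : vec g l f = 0 := by
  induction l with
  | nil => rfl
  | cons f' l ih =>
    rw [List.mem_cons, not_or] at hf
    rw [vec_cons, if_neg hf.1, ih hf.2, mul_zero, add_zero]

end lists

section flows

variable [Fintype E]

/-- the cost of a flow -/
def cst (c y : E → ℝ) : ℝ := ∑ f, c f * y f

theorem cst_add (c y z : E → ℝ) : cst c (fun f => y f + z f) = cst c y + cst c z := by
  unfold cst
  rw [← sum_add_distrib]
  exact sum_congr rfl fun f _ => by ring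

theorem cst_mul (c y : E → ℝ) (t : ℝ) : cst c (fun f => t * y f) = t * cst c y := by
  unfold cst
  rw [mul_sum]
  exact sum_congr rfl fun f _ => by ring

theorem cst_sum {ι : Type} (c : E → ℝ) (I : Finset ι) (Y : ι → E → ℝ) :
    cst c (fun f => ∑ i ∈ I, Y i f) = ∑ i ∈ I, cst c (Y i) := by
  unfold cst
  rw [sum_comm]
  exact sum_congr rfl fun f _ => by rw [mul_sum]

theorem cst_mono {c y z : E → ℝ} (hc : ∀ f, 0 ≤ c f) (h : ∀ f, y f ≤ z f) : cst c y ≤ cst c z :=
  sum_le_sum fun f _ => mul_le_mul_of_nonneg_left (h f) (hc f)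

theorem cst_nonneg {c y : E → ℝ} (hc : ∀ f, 0 ≤ c f) (h : ∀ f, 0 ≤ y f) : 0 ≤ cst c y :=
  sum_nonneg fun f _ => mul_nonneg (hc f) (h f)

theorem cst_vec [DecidableEq E] (g c : E → ℝ) (l : List E) : cst c (vec g l) = sml g c l := by
  induction l with
  | nil =>
    unfold cst
    exact sum_eq_zero fun f _ => mul_zero _
  | cons f l ih =>
    have h1 : vec g (f :: l) = fun f' => (if f' = f then 1 else 0) + g f * vec g l f' :=
      funext fun f' => vec_cons g f l f'
    rw [h1, cst_add, cst_mul, ih]
    change cst c (fun f' => if f' = f then 1 else 0) + g f * sml g c l = c f + g f * sml g c l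
    congr 1
    unfold cst
    simp only [mul_ite, mul_one, mul_zero]
    rw [sum_ite_eq' univ f, if_pos (mem_univ f)]

variable [DecidableEq N] (tl hd : E → Option N) (g : E → ℝ)

theorem dd_add (y z : E → ℝ) (u : N) :
    dd tl hd g (fun f => y f + z f) u = dd tl hd g y u + dd tl hd g z u := by
  unfold dd
  rw [← sum_add_distrib]
  refine sum_congr rfl fun f _ => ?_
  split_ifs <;> ring

theorem dd_mul (y : E → ℝ) (t : ℝ) (u : N) :
    dd tl hd g (fun f => t * y f) u = t * dd tl hd g y u := by
  unfold dd
  rw [mul_sum]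
  refine sum_congr rfl fun f _ => ?_
  split_ifs <;> ring

theorem dd_zero (u : N) : dd tl hd g (fun _ => 0) u = 0 := by
  unfold dd
  exact sum_eq_zero fun f _ => by simp

theorem dd_sum {ι : Type} (I : Finset ι) (Y : ι → E → ℝ) (u : N) :
    dd tl hd g (fun f => ∑ i ∈ I, Y i f) u = ∑ i ∈ I, dd tl hd g (Y i) u := by
  classical
  induction I using Finset.induction_on with
  | empty =>
    simp only [sum_empty]
    exact dd_zero tl hd g u
  | insert i I hi ih =>
    have h1 : (fun f => ∑ i ∈ insert i I, Y i f) = fun f => Y i f + ∑ i ∈ I, Y i f :=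
      funext fun f => sum_insert hi
    rw [h1, dd_add, sum_insert hi, ih]

variable [DecidableEq E]

theorem dd_single (f : E) (t : ℝ) (u : N) : dd tl hd g (fun f' => if f' = f then t else 0) u =
    (if tl f = some u then t else 0) - (if hd f = some u then g f * t else 0) := by
  unfold dd
  rw [sum_eq_single f]
  · simp
  · intro f' _ hf'
    simp [hf']
  · intro h
    exact absurd (mem_univ f) h

theorem dd_vec {v w : N} {l : List E} (h : Wk tl hd v l w) (u : N) :
    dd tl hd g (vec g l) u = (if v = u then 1 else 0) - (if w = u then wt g l else 0) := by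
  induction h with
  | nil v =>
    have h1 : vec g ([] : List E) = fun _ => 0 := rfl
    rw [h1, dd_zero, wt_nil, sub_self]
  | @cons v x w f l h1 h2 _ ih =>
    have h3 : vec g (f :: l) = fun f' => (if f' = f then 1 else 0) + g f * vec g l f' :=
      funext fun f' => vec_cons g f l f'
    rw [h3, dd_add, dd_mul, ih, dd_single, h1, h2, wt_cons]
    simp only [Option.some.injEq]
    split_ifs <;> ring

end flows

end Pool.Agent.L7h80.TV
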