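import Pool.Agent.L7h39.TV.Stm
import Pool.Agent.L7h80.TV.Bas

set_option autoImplicit false

/-!
# Graphs with gains: the circulations through an arc (`S_MIX` of helper39)
-/

namespace Pool.Agent.L7h80.TV

open Finset Pool.Agent.L7h39.TV

variable {E N : Type} [Fintype E] [DecidableEq E]

section peel

variable {tl hd : E → Option N} {g : E → ℝ} {e : E} {p q : N}

theorem peel (hg : ∀ f, 0 < g f) (he : tl e = some p) :
    ∀ (n : ℕ) (y : E → ℝ), (∀ f, 0 ≤ y f) → (univ.filter fun f => y f ≠ 0).card ≤ n →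
    ∃ (k : ℕ) (lam : Fin k → ℝ) (P : Fin k → List E) (y' : E → ℝ), (∀ i, 0 < lam i) ∧
      (∀ i, Wk tl hd q (P i) p ∧ (P i).length ≤ Fintype.card E ∧ e ∉ P i) ∧ (∀ f, 0 ≤ y' f) ∧
      (∀ f, y f = ∑ i, lam i * vec g (e :: P i) f + y' f) ∧
      (y' e = 0 ∨ ∃ R : Set N, q ∈ R ∧ p ∉ R ∧
        ∀ f u u', tl f = some u → hd f = some u' → u ∈ R → 0 < y' f → u' ∈ R) := by
  intro n
  induction n with
  | zero =>
    intro y hy hn
    refine ⟨0, fun i => i.elim0, fun i => i.elim0, y, fun i => i.elim0, fun i => i.elim0, hy,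
      fun f => by simp, Or.inl ?_⟩
    by_contra h
    have h1 : e ∈ univ.filter fun f => y f ≠ 0 := mem_filter.2 ⟨mem_univ _, h⟩
    rw [card_eq_zero.1 (Nat.le_zero.1 hn)] at h1
    exact absurd h1 (notMem_empty e)
  | succ n ih =>
    intro y hy hn
    by_cases hye : y e = 0
    · exact ⟨0, fun i => i.elim0, fun i => i.elim0, y, fun i => i.elim0, fun i => i.elim0, hy,
        fun f => by simp, Or.inl hye⟩
    have hye0 : 0 < y e := lt_of_le_of_ne (hy e) (Ne.symm hye)
    by_cases hP : ∃ P, Wk tl hd q P p ∧ ∀ f ∈ P, 0 < y f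
    · obtain ⟨P0, hP0, hP0y⟩ := hP
      obtain ⟨P, hP1, hPy, hPn, hPp⟩ := short (fun f => 0 < y f) _ P0 rfl hP0 hP0y
      have heP : e ∉ P := fun h => hPp e h he
      have hlen : P.length ≤ Fintype.card E := hPn.length_le_card
      have hpos : ∀ f ∈ e :: P, 0 < y f := by
        intro f hf
        rcases List.mem_cons.1 hf with h | h
        · rw [h]; exact hye0
        · exact hPy f h
      obtain ⟨f0, hf0, hmin⟩ := exists_min_image (e :: P).toFinset
        (fun f => y f / vec g (e :: P) f) ⟨e, by simp⟩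
      rw [List.mem_toFinset] at hf0
      obtain ⟨t, ht⟩ : ∃ t, t = y f0 / vec g (e :: P) f0 := ⟨_, rfl⟩
      have hv0 : 0 < vec g (e :: P) f0 := vec_pos hg hf0
      have ht0 : 0 < t := by
        rw [ht]
        exact div_pos (hpos f0 hf0) hv0
      obtain ⟨y1, hy1⟩ : ∃ y1 : E → ℝ, y1 = fun f => y f - t * vec g (e :: P) f := ⟨_, rfl⟩
      have hy10 : ∀ f, 0 ≤ y1 f := by
        intro f
        rw [hy1]
        simp only
        by_cases hf : f ∈ e :: P
        · have h1 := hmin f (List.mem_toFinset.2 hf)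
          rw [← ht, le_div_iff₀ (vec_pos hg hf)] at h1
          linarith
        · rw [vec_zero hf, mul_zero, sub_zero]
          exact hy f
      have hcard : (univ.filter fun f => y1 f ≠ 0).card ≤ n := by
        have h1 : (univ.filter fun f => y1 f ≠ 0) ⊂ (univ.filter fun f => y f ≠ 0) := by
          refine ssubset_iff_of_subset ?_ |>.2 ⟨f0, ?_, ?_⟩
          · intro f hf
            rw [mem_filter] at hf ⊢
            refine ⟨mem_univ _, fun h => hf.2 ?_⟩
            rw [hy1]
            simp only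
            by_cases hfe : f ∈ e :: P
            · exact absurd h (hpos f hfe).ne'
            · rw [h, vec_zero hfe]
              ring
          · exact mem_filter.2 ⟨mem_univ _, (hpos f0 hf0).ne'⟩
          · rw [mem_filter, not_and, not_not]
            intro _
            rw [hy1]
            simp only
            rw [ht, div_mul_cancel₀ _ hv0.ne', sub_self]
        have h2 := card_lt_card h1
        omega
      obtain ⟨k, lam, Q, y', h1, h2, h3, h4, h5⟩ := ih y1 hy10 hcard
      refine ⟨k + 1, Fin.cons t lam, Fin.cons P Q, y', ?_, ?_, h3, ?_, h5⟩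
      · intro i
        refine Fin.cases ?_ (fun i => ?_) i
        · exact ht0
        · exact h1 i
      · intro i
        refine Fin.cases ?_ (fun i => ?_) i
        · exact ⟨hP1, hlen, heP⟩
        · exact h2 i
      · intro f
        rw [Fin.sum_univ_succ]
        simp only [Fin.cons_zero, Fin.cons_succ]
        have h6 := h4 f
        rw [hy1] at h6
        simp only at h6
        linarith
    · refine ⟨0, fun i => i.elim0, fun i => i.elim0, y, fun i => i.elim0, fun i => i.elim0, hy,
        fun f => by simp, Or.inr ⟨{u | ∃ P, Wk tl hd q P u ∧ ∀ f ∈ P, 0 < y f},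
          ⟨[], Wk.nil q, fun f hf => absurd hf List.not_mem_nil⟩, hP, ?_⟩⟩
      rintro f u u' h1 h2 ⟨P, h3, h4⟩ h5
      refine ⟨P ++ [f], wk_append h3 (Wk.cons h1 h2 (Wk.nil u')), ?_⟩
      intro f' hf'
      rcases List.mem_append.1 hf' with h | h
      · exact h4 f' h
      · rw [List.mem_singleton.1 h]
        exact h5

end peel

section cut

variable [DecidableEq N] {tl hd : E → Option N} {g : E → ℝ} {e : E} {p q : N}

/-- the part of the flow which starts in `R` -/
theorem cutR (hg : ∀ f, 0 < g f) (he : tl e = some p) (he' : hd e = some q) {y' : E → ℝ}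
    (hy' : ∀ f, 0 ≤ y' f) {D : ℝ} (hdd : ∀ u, dd tl hd g y' u = if u = p then D else 0)
    (hR : y' e = 0 ∨ ∃ R : Set N, q ∈ R ∧ p ∉ R ∧
        ∀ f u u', tl f = some u → hd f = some u' → u ∈ R → 0 < y' f → u' ∈ R) :
    ∃ yR : E → ℝ, (∀ f, 0 ≤ yR f) ∧ (∀ f, yR f ≤ y' f) ∧ yR e = 0 ∧
      (∀ u, 0 ≤ dd tl hd g yR u) ∧ g e * y' e ≤ dd tl hd g yR q := by
  classical
  rcases hR with h0 | ⟨R, hq, hp, hcl⟩
  · refine ⟨fun _ => 0, fun _ => le_rfl, hy', rfl, fun u => ?_, ?_⟩
    · rw [dd_zero]
    · rw [dd_zero, h0, mul_zero]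
  · obtain ⟨yR, hyR⟩ : ∃ yR : E → ℝ, yR = fun f => if ∃ u ∈ R, tl f = some u then y' f else 0 :=
      ⟨_, rfl⟩
    have h0 : ∀ f, 0 ≤ yR f := by
      intro f
      rw [hyR]
      simp only
      split_ifs
      · exact hy' f
      · exact le_rfl
    have hle : ∀ f, yR f ≤ y' f := by
      intro f
      rw [hyR]
      simp only
      split_ifs
      · exact le_rfl
      · exact hy' f
    have hyRe : yR e = 0 := by
      rw [hyR]
      simp only
      rw [if_neg]
      rintro ⟨u, hu, h⟩
      rw [he] at h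
      exact hp (Option.some.inj h ▸ hu)
    have hin : ∀ u ∈ R, dd tl hd g yR u = dd tl hd g y' u +
        ∑ f, (if hd f = some u then g f * (y' f - yR f) else 0) := by
      intro u hu
      unfold dd
      rw [← sum_add_distrib]
      refine sum_congr rfl fun f _ => ?_
      have h1 : (if tl f = some u then yR f else 0) = if tl f = some u then y' f else 0 := by
        split_ifs with h
        · rw [hyR]
          simp only
          rw [if_pos ⟨u, hu, h⟩]
        · rfl
      rw [h1]
      split_ifs <;> ring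
    have hterm : ∀ u f, 0 ≤ (if hd f = some u then g f * (y' f - yR f) else 0) := by
      intro u f
      split_ifs
      · exact mul_nonneg (hg f).le (sub_nonneg.2 (hle f))
      · exact le_rfl
    refine ⟨yR, h0, hle, hyRe, fun u => ?_, ?_⟩
    · by_cases hu : u ∈ R
      · rw [hin u hu, hdd, if_neg (fun h : u = p => hp (h ▸ hu)), zero_add]
        exact sum_nonneg fun f _ => hterm u f
      · apply le_of_eq
        symm
        unfold dd
        refine sum_eq_zero fun f _ => ?_
        have h1 : (if tl f = some u then yR f else 0) = 0 := by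
          split_ifs with h
          · rw [hyR]
            simp only
            rw [if_neg]
            rintro ⟨u', hu', h'⟩
            rw [h] at h'
            exact hu (Option.some.inj h' ▸ hu')
          · rfl
        have h2 : (if hd f = some u then g f * yR f else 0) = 0 := by
          split_ifs with h
          · rw [hyR]
            simp only
            split_ifs with h3
            · obtain ⟨u', hu', h'⟩ := h3
              rcases (hy' f).eq_or_lt with h4 | h4
              · rw [← h4, mul_zero]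
              · exact absurd (hcl f u' u h' h hu' h4) hu
            · rw [mul_zero]
          · rfl
        rw [h1, h2, sub_zero]
    · rw [hin q hq, hdd, if_neg (fun h : q = p => hp (h ▸ hq)), zero_add]
      refine le_trans (le_of_eq ?_) (single_le_sum (f := fun f => if hd f = some q then
        g f * (y' f - yR f) else 0) (fun f _ => hterm q f) (mem_univ e))
      rw [if_pos he', hyRe, sub_zero]

/-- the part of the flow which ends outside `R` -/
theorem cutS (he : tl e = some p) (he' : hd e = some q) {y' : E → ℝ}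
    (hy' : ∀ f, 0 ≤ y' f) {D : ℝ} (hdd : ∀ u, dd tl hd g y' u = if u = p then D else 0)
    (hR : y' e = 0 ∨ ∃ R : Set N, q ∈ R ∧ p ∉ R ∧
        ∀ f u u', tl f = some u → hd f = some u' → u ∈ R → 0 < y' f → u' ∈ R) :
    ∃ yS : E → ℝ, (∀ f, 0 ≤ yS f) ∧ (∀ f, yS f ≤ y' f) ∧
      ∀ u, dd tl hd g yS u ≤ if u = p then D - y' e else 0 := by
  classical
  rcases hR with h0 | ⟨R, hq, hp, hcl⟩
  · refine ⟨y', hy', fun _ => le_rfl, fun u => ?_⟩
    rw [hdd, h0, sub_zero]
  · obtain ⟨yS, hyS⟩ : ∃ yS : E → ℝ, yS = fun f => if ∃ u, u ∉ R ∧ hd f = some u then y' f else 0 :=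
      ⟨_, rfl⟩
    have h0 : ∀ f, 0 ≤ yS f := by
      intro f
      rw [hyS]
      simp only
      split_ifs
      · exact hy' f
      · exact le_rfl
    have hle : ∀ f, yS f ≤ y' f := by
      intro f
      rw [hyS]
      simp only
      split_ifs
      · exact le_rfl
      · exact hy' f
    have hySe : yS e = 0 := by
      rw [hyS]
      simp only
      rw [if_neg]
      rintro ⟨u, hu, h⟩
      rw [he'] at h
      exact hu (Option.some.inj h ▸ hq)
    have hout : ∀ u, u ∉ R → dd tl hd g yS u = dd tl hd g y' u -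
        ∑ f, (if tl f = some u then (y' f - yS f) else 0) := by
      intro u hu
      unfold dd
      rw [← sum_sub_distrib]
      refine sum_congr rfl fun f _ => ?_
      have h1 : (if hd f = some u then g f * yS f else 0) =
          if hd f = some u then g f * y' f else 0 := by
        split_ifs with h
        · rw [hyS]
          simp only
          rw [if_pos ⟨u, hu, h⟩]
        · rfl
      rw [h1]
      split_ifs <;> ring
    have hterm : ∀ u f, 0 ≤ (if tl f = some u then (y' f - yS f) else 0) := by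
      intro u f
      split_ifs
      · exact sub_nonneg.2 (hle f)
      · exact le_rfl
    refine ⟨yS, h0, hle, fun u => ?_⟩
    by_cases hu : u ∈ R
    · have hup : u ≠ p := fun h => hp (h ▸ hu)
      rw [if_neg hup]
      apply le_of_eq
      unfold dd
      refine sum_eq_zero fun f _ => ?_
      have h1 : (if hd f = some u then g f * yS f else 0) = 0 := by
        split_ifs with h
        · rw [hyS]
          simp only
          rw [if_neg, mul_zero]
          rintro ⟨u', hu', h'⟩
          rw [h] at h'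
          exact hu' (Option.some.inj h' ▸ hu)
        · rfl
      have h2 : (if tl f = some u then yS f else 0) = 0 := by
        split_ifs with h
        · rw [hyS]
          simp only
          split_ifs with h3
          · obtain ⟨u', hu', h'⟩ := h3
            rcases (hy' f).eq_or_lt with h4 | h4
            · exact h4.symm
            · exact absurd (hcl f u u' h h' hu h4) hu'
          · rfl
        · rfl
      rw [h1, h2, sub_zero]
    · rw [hout u hu, hdd]
      by_cases hup : u = p
      · rw [if_pos hup, if_pos hup]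
        have h1 := single_le_sum (f := fun f => if tl f = some u then (y' f - yS f) else 0)
          (fun f _ => hterm u f) (mem_univ e)
        rw [he, hup, if_pos rfl, hySe, sub_zero] at h1
        rw [hup]
        linarith
      · rw [if_neg hup, if_neg hup]
        have := sum_nonneg fun f (_ : f ∈ (univ : Finset E)) => hterm u f
        linarith

end cut

set_option maxHeartbeats 1000000 in
theorem s_MIX : S_MIX := by
  classical
  intro E N _ _ _ tl hd g c y e p q Tp Tq Sp hg hc hy hdd he he' hye hTp hTq hSp hLp hLq hLS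
  obtain ⟨k, lam, P, y', hlam, hP, hy', hdec, hR⟩ := peel hg he _ y hy le_rfl
  obtain ⟨V, hV⟩ : ∃ V : Fin k → E → ℝ, V = fun i => vec g (e :: P i) := ⟨_, rfl⟩
  obtain ⟨γ, hγ⟩ : ∃ γ : Fin k → ℝ, γ = fun i => wt g (e :: P i) := ⟨_, rfl⟩
  obtain ⟨s, hs⟩ : ∃ s : Fin k → ℝ, s = fun i => sml g c (e :: P i) := ⟨_, rfl⟩
  obtain ⟨ρ, hρ⟩ : ∃ ρ : ℝ, ρ = ∑ f, c f * y f := ⟨_, rfl⟩
  have hW : ∀ i, Wk tl hd p (e :: P i) p := fun i => Wk.cons he he' (hP i).1
  have hVdd : ∀ i u, dd tl hd g (V i) u = if u = p then 1 - γ i else 0 := by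
    intro i u
    rw [hV, hγ]
    simp only
    rw [dd_vec tl hd g (hW i)]
    by_cases h : u = p
    · rw [if_pos h.symm, if_pos h.symm, if_pos h]
    · rw [if_neg (Ne.symm h), if_neg (Ne.symm h), if_neg h, sub_self]
  have hs0 : ∀ i, 0 ≤ s i := fun i => by rw [hs]; exact sml_nonneg hg hc _
  have hγ0 : ∀ i, 0 < γ i := fun i => by rw [hγ]; exact wt_pos hg _
  have hγP : ∀ i, γ i = g e * wt g (P i) := fun i => by rw [hγ]; exact wt_cons g e (P i)
  have hsP : ∀ i, s i = c e + g e * sml g c (P i) := fun i => by rw [hs]; rfl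
  have hV0 : ∀ i f, 0 ≤ V i f := fun i f => by rw [hV]; exact vec_nonneg hg _ f
  have hVe : ∀ i, V i e = 1 := by
    intro i
    rw [hV]
    simp only
    rw [vec_cons, if_pos rfl, vec_zero (hP i).2.2, mul_zero, add_zero]
  -- sums of closed walks
  obtain ⟨FI, hFI⟩ : ∃ FI : Finset (Fin k) → E → ℝ, FI = fun I f => ∑ i ∈ I, lam i * V i f :=
    ⟨_, rfl⟩
  have hFdd : ∀ I u, dd tl hd g (FI I) u = if u = p then ∑ i ∈ I, lam i * (1 - γ i) else 0 := by
    intro I u
    rw [hFI]
    simp only
    rw [dd_sum tl hd g I (fun i f => lam i * V i f) u]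
    by_cases h : u = p
    · rw [if_pos h]
      refine sum_congr rfl fun i _ => ?_
      rw [dd_mul, hVdd, if_pos h]
    · rw [if_neg h]
      refine sum_eq_zero fun i _ => ?_
      rw [dd_mul, hVdd, if_neg h, mul_zero]
  have hFc : ∀ I, cst c (FI I) = ∑ i ∈ I, lam i * s i := by
    intro I
    rw [hFI]
    simp only
    rw [cst_sum c I (fun i f => lam i * V i f)]
    refine sum_congr rfl fun i _ => ?_
    rw [cst_mul, hV, hs, cst_vec]
  have hF0 : ∀ I f, 0 ≤ FI I f := by
    intro I f
    rw [hFI]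
    exact sum_nonneg fun i _ => mul_nonneg (hlam i).le (hV0 i f)
  obtain ⟨S, hS⟩ : ∃ S : ℝ, S = ∑ i, lam i * s i := ⟨_, rfl⟩
  have hFcS : ∀ I, cst c (FI I) ≤ S := by
    intro I
    rw [hFc, hS]
    exact sum_le_sum_of_subset_of_nonneg (subset_univ I) fun i _ _ => mul_nonneg (hlam i).le (hs0 i)
  have hyeq : y = fun f => FI univ f + y' f := by
    funext f
    rw [hFI]
    simp only
    rw [hV]
    exact hdec f
  have hρS : ρ = S + cst c y' := by
    have h1 : ρ = cst c y := hρ
    rw [h1, hyeq, cst_add, hFc, hS]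
  have hc'0 : 0 ≤ cst c y' := cst_nonneg hc hy'
  have hS0 : 0 ≤ S := by
    rw [hS]
    exact sum_nonneg fun i _ => mul_nonneg (hlam i).le (hs0 i)
  have hρ0 : 0 ≤ ρ := by linarith
  have hth : ∑ i, lam i + y' e = 1 := by
    have h1 := hye
    rw [hyeq, hFI] at h1
    simp only [hVe, mul_one] at h1
    exact h1
  have hy'e : 0 ≤ y' e := hy' e
  -- the excesses
  obtain ⟨I1, hI1⟩ : ∃ I1 : Finset (Fin k), I1 = univ.filter fun i => γ i < 1 := ⟨_, rfl⟩
  obtain ⟨I2, hI2⟩ : ∃ I2 : Finset (Fin k), I2 = univ.filter fun i => 1 < γ i := ⟨_, rfl⟩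
  obtain ⟨Em, hEm⟩ : ∃ Em : ℝ, Em = ∑ i ∈ I1, lam i * (1 - γ i) := ⟨_, rfl⟩
  obtain ⟨Ep, hEp⟩ : ∃ Ep : ℝ, Ep = ∑ i ∈ I2, lam i * (γ i - 1) := ⟨_, rfl⟩
  have hEm0 : ∀ i ∈ I1, 0 < lam i * (1 - γ i) := by
    intro i hi
    rw [hI1, mem_filter] at hi
    exact mul_pos (hlam i) (by linarith [hi.2])
  have hEp0 : ∀ i ∈ I2, 0 < lam i * (γ i - 1) := by
    intro i hi
    rw [hI2, mem_filter] at hi
    exact mul_pos (hlam i) (by linarith [hi.2])
  have hEmn : 0 ≤ Em := by rw [hEm]; exact sum_nonneg fun i hi => (hEm0 i hi).le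
  have hEpn : 0 ≤ Ep := by rw [hEp]; exact sum_nonneg fun i hi => (hEp0 i hi).le
  have hEmi : ∀ i, γ i < 1 → lam i * (1 - γ i) ≤ Em := by
    intro i hi
    rw [hEm]
    exact single_le_sum (f := fun i => lam i * (1 - γ i)) (fun i hi => (hEm0 i hi).le)
      (by rw [hI1]; exact mem_filter.2 ⟨mem_univ i, hi⟩)
  have hEpi : ∀ i, 1 < γ i → lam i * (γ i - 1) ≤ Ep := by
    intro i hi
    rw [hEp]
    exact single_le_sum (f := fun i => lam i * (γ i - 1)) (fun i hi => (hEp0 i hi).le)
      (by rw [hI2]; exact mem_filter.2 ⟨mem_univ i, hi⟩)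
  have hEmf : Em = ∑ i, lam i * max (1 - γ i) 0 := by
    rw [hEm, hI1, sum_filter]
    refine sum_congr rfl fun i _ => ?_
    split_ifs with h
    · rw [max_eq_left (by linarith)]
    · rw [max_eq_right (by linarith), mul_zero]
  have hEpf : Ep = ∑ i, lam i * max (γ i - 1) 0 := by
    rw [hEp, hI2, sum_filter]
    refine sum_congr rfl fun i _ => ?_
    split_ifs with h
    · rw [max_eq_left (by linarith)]
    · rw [max_eq_right (by linarith), mul_zero]
  have hD : ∑ i, lam i * (1 - γ i) = Em - Ep := by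
    rw [hEmf, hEpf, ← sum_sub_distrib]
    refine sum_congr rfl fun i _ => ?_
    rcases le_total (γ i) 1 with h | h
    · rw [max_eq_left (by linarith : (0 : ℝ) ≤ 1 - γ i), max_eq_right (by linarith : γ i - 1 ≤ 0)]
      ring
    · rw [max_eq_right (by linarith : 1 - γ i ≤ 0), max_eq_left (by linarith : 0 ≤ γ i - 1)]
      ring
  have hdd' : ∀ u, dd tl hd g y' u = if u = p then Ep - Em else 0 := by
    intro u
    have h1 := hdd u
    rw [hyeq, dd_add, hFdd, hD] at h1
    split_ifs at h1 ⊢ <;> linarith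
  obtain ⟨yR, hyR0, hyRle, hyRe, hyRdd, hyRq⟩ := cutR hg he he' hy' hdd' hR
  obtain ⟨yS, hyS0, hySle, hySdd⟩ := cutS he he' hy' hdd' hR
  obtain ⟨Nn, hNn⟩ : ∃ Nn : ℝ, Nn = Em + y' e := ⟨_, rfl⟩
  have hFI1 : ∑ i ∈ I1, lam i * (1 - γ i) = Em := hEm.symm
  have hFI2 : ∑ i ∈ I2, lam i * (1 - γ i) = -Ep := by
    rw [hEp, ← sum_neg_distrib]
    exact sum_congr rfl fun i _ => by ring
  -- the flow F1
  obtain ⟨F1, hF1⟩ : ∃ F1 : E → ℝ, F1 = fun f => FI I1 f + ((if f = e then y' e else 0) + yR f) :=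
    ⟨_, rfl⟩
  have hF1n : ∀ f, 0 ≤ F1 f := by
    intro f
    rw [hF1]
    have h1 := hF0 I1 f
    have h2 := hyR0 f
    simp only
    split_ifs <;> linarith
  have hF1dd : ∀ u, (if u = p then Nn else 0) ≤ dd tl hd g F1 u := by
    intro u
    rw [hF1, dd_add, dd_add, hFdd, hFI1, dd_single, he, he']
    simp only [Option.some.injEq]
    have h1 := hyRdd u
    by_cases hup : u = p
    · rw [if_pos hup, if_pos hup, if_pos hup.symm]
      by_cases huq : u = q
      · rw [if_pos huq.symm, huq]
        linarith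
      · rw [if_neg (Ne.symm huq)]
        linarith
    · rw [if_neg hup, if_neg hup, if_neg (Ne.symm hup)]
      by_cases huq : u = q
      · rw [if_pos huq.symm, huq]
        linarith
      · rw [if_neg (Ne.symm huq)]
        linarith
  have hNn0 : 0 ≤ Nn := by rw [hNn]; linarith
  have hF1ddn : ∀ u, 0 ≤ dd tl hd g F1 u := by
    intro u
    refine le_trans ?_ (hF1dd u)
    split_ifs
    · exact hNn0
    · exact le_rfl
  have hF1c : cst c F1 ≤ ρ := by
    rw [hF1, cst_add, hρS]
    refine add_le_add (hFcS I1) (cst_mono hc fun f => ?_)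
    by_cases hf : f = e
    · rw [if_pos hf, hf, hyRe, add_zero]
    · rw [if_neg hf, zero_add]
      exact hyRle f
  have b1 : Nn * Tp ≤ ρ := by
    refine le_trans (mul_le_mul_of_nonneg_right ?_ hTp) ((hLp F1 hF1n hF1ddn).trans hF1c)
    have := hF1dd p
    rwa [if_pos rfl] at this
  -- the flow F2
  obtain ⟨F2, hF2⟩ : ∃ F2 : E → ℝ, F2 = fun f => FI I1 f + y' f := ⟨_, rfl⟩
  have hF2n : ∀ f, 0 ≤ F2 f := by
    intro f
    rw [hF2]
    exact add_nonneg (hF0 I1 f) (hy' f)
  have hF2dd : ∀ u, dd tl hd g F2 u = if u = p then Ep else 0 := by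
    intro u
    rw [hF2, dd_add, hFdd, hFI1, hdd']
    split_ifs <;> ring
  have hF2ddn : ∀ u, 0 ≤ dd tl hd g F2 u := by
    intro u
    rw [hF2dd]
    split_ifs
    · exact hEpn
    · exact le_rfl
  have hF2c : cst c F2 ≤ ρ := by
    rw [hF2, cst_add, hρS]
    exact add_le_add (hFcS I1) le_rfl
  have b2 : Ep * Tp ≤ ρ := by
    have h1 := (hLp F2 hF2n hF2ddn).trans hF2c
    rwa [hF2dd, if_pos rfl] at h1
  -- the flow F3
  obtain ⟨F3, hF3⟩ : ∃ F3 : E → ℝ, F3 = fun f => FI I2 f + yS f := ⟨_, rfl⟩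
  have hF3n : ∀ f, 0 ≤ F3 f := by
    intro f
    rw [hF3]
    exact add_nonneg (hF0 I2 f) (hyS0 f)
  have hF3dd : ∀ u, dd tl hd g F3 u ≤ if u = p then -Nn else 0 := by
    intro u
    rw [hF3, dd_add, hFdd, hFI2]
    have h1 := hySdd u
    split_ifs at h1 ⊢ <;> linarith
  have hF3ddn : ∀ u, dd tl hd g F3 u ≤ 0 := by
    intro u
    refine (hF3dd u).trans ?_
    split_ifs
    · linarith
    · exact le_rfl
  have hF3p : Nn ≤ -dd tl hd g F3 p := by
    have h1 := hF3dd p
    rw [if_pos rfl] at h1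
    linarith
  have hF3c : cst c F3 ≤ ρ := by
    rw [hF3, cst_add, hρS]
    exact add_le_add (hFcS I2) (cst_mono hc hySle)
  have b3 : Nn * Sp ≤ ρ :=
    le_trans (mul_le_mul_of_nonneg_right hF3p hSp) ((hLS F3 hF3n hF3ddn).trans hF3c)
  -- the flow F4
  have hF4dd : ∀ u, dd tl hd g (FI I2) u = if u = p then -Ep else 0 := by
    intro u
    rw [hFdd, hFI2]
  have hF4ddn : ∀ u, dd tl hd g (FI I2) u ≤ 0 := by
    intro u
    rw [hF4dd]
    split_ifs
    · linarith
    · exact le_rfl
  have b4 : Ep * Sp ≤ ρ := by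
    have h1 := (hLS (FI I2) (hF0 I2) hF4ddn).trans (hFcS I2)
    rw [hF4dd, if_pos rfl, neg_neg] at h1
    linarith
  have hyRc : cst c yR ≤ ρ := by
    have := cst_mono hc hyRle
    linarith
  have b5 : g e * y' e * Tq ≤ ρ :=
    le_trans (mul_le_mul_of_nonneg_right hyRq hTq) ((hLq yR hyR0 hyRdd).trans hyRc)
  -- flows from `q`
  obtain ⟨QI, hQI⟩ : ∃ QI : Finset (Fin k) → E → ℝ,
    QI = fun I f => ∑ i ∈ I, lam i * g e * vec g (P i) f := ⟨_, rfl⟩
  have hQ0 : ∀ I f, 0 ≤ QI I f := by
    intro I f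
    rw [hQI]
    exact sum_nonneg fun i _ => mul_nonneg (mul_nonneg (hlam i).le (hg e).le) (vec_nonneg hg _ f)
  have hQdd : ∀ I u, dd tl hd g (QI I) u = (if u = q then g e * ∑ i ∈ I, lam i else 0) -
      (if u = p then ∑ i ∈ I, lam i * γ i else 0) := by
    intro I u
    rw [hQI]
    simp only
    rw [dd_sum tl hd g I (fun i f => lam i * g e * vec g (P i) f) u]
    have h1 : ∀ i ∈ I, dd tl hd g (fun f => lam i * g e * vec g (P i) f) u =
        (if u = q then g e * lam i else 0) - (if u = p then lam i * γ i else 0) := by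
      intro i _
      rw [dd_mul, dd_vec tl hd g (hP i).1, hγP]
      by_cases h1 : u = q
      · by_cases h2 : u = p
        · rw [if_pos h1.symm, if_pos h2.symm, if_pos h1, if_pos h2]
          ring
        · rw [if_pos h1.symm, if_neg (Ne.symm h2), if_pos h1, if_neg h2]
          ring
      · by_cases h2 : u = p
        · rw [if_neg (Ne.symm h1), if_pos h2.symm, if_neg h1, if_pos h2]
          ring
        · rw [if_neg (Ne.symm h1), if_neg (Ne.symm h2), if_neg h1, if_neg h2]
          ring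
    rw [sum_congr rfl h1, sum_sub_distrib]
    congr 1
    · split_ifs
      · rw [mul_sum]
      · exact sum_const_zero
    · split_ifs
      · rfl
      · exact sum_const_zero
  have hQc : ∀ I, cst c (QI I) ≤ ρ := by
    intro I
    have h1 : cst c (QI I) = ∑ i ∈ I, lam i * g e * sml g c (P i) := by
      rw [hQI]
      simp only
      rw [cst_sum c I (fun i f => lam i * g e * vec g (P i) f)]
      exact sum_congr rfl fun i _ => by rw [cst_mul, cst_vec]
    have h2 : cst c (QI I) ≤ cst c (FI I) := by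
      rw [h1, hFc]
      refine sum_le_sum fun i _ => ?_
      rw [hsP, mul_add, mul_assoc]
      have := mul_nonneg (hlam i).le (hc e)
      linarith
    have h3 := hFcS I
    linarith
  have hsum1 : ∀ I : Finset (Fin k), ∑ i ∈ I, lam i ≤ 1 := by
    intro I
    have := sum_le_sum_of_subset_of_nonneg (f := lam) (subset_univ I) fun i _ _ => (hlam i).le
    linarith
  -- the cases
  rw [← hρ]
  by_cases hN : 1 / 8 ≤ Nn
  · left
    have hSpρ : Sp ≤ 200 * ρ := by nlinarith
    have hFes : Fes tl hd g p := ⟨F3, hF3n, hF3ddn, by linarith⟩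
    by_cases hy1 : 1 / 16 ≤ y' e
    · refine ⟨⟨yR, hyR0, hyRdd, ?_⟩, hFes, ?_, hSpρ⟩
      · have : 0 < g e * y' e := mul_pos (hg e) (by linarith)
        linarith
      · have h1 : 1 / 16 * (g e * Tq) ≤ y' e * (g e * Tq) :=
          mul_le_mul_of_nonneg_right hy1 (mul_nonneg (hg e).le hTq)
        have h2 : y' e * (g e * Tq) = g e * y' e * Tq := by ring
        linarith
    · push Not at hy1
      have hEm1 : 1 / 16 ≤ Em := by linarith
      have ht : Em ≤ ∑ i ∈ I1, lam i := by
        rw [hEm]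
        refine sum_le_sum fun i _ => ?_
        have h1 := hγ0 i
        have h2 := hlam i
        nlinarith
      obtain ⟨H, hH⟩ : ∃ H : E → ℝ, H = fun f => QI I1 f + 8 * F1 f := ⟨_, rfl⟩
      have hHn : ∀ f, 0 ≤ H f := by
        intro f
        rw [hH]
        have h1 := hQ0 I1 f
        have h2 := hF1n f
        simp only
        linarith
      have hγs : ∑ i ∈ I1, lam i * γ i ≤ 1 := by
        refine le_trans (sum_le_sum fun i hi => ?_) (hsum1 I1)
        rw [hI1, mem_filter] at hi
        have h1 := hlam i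
        nlinarith [hi.2]
      have hHdd : ∀ u, (if u = q then g e * ∑ i ∈ I1, lam i else 0) ≤ dd tl hd g H u := by
        intro u
        rw [hH, dd_add, dd_mul, hQdd]
        have h1 := hF1dd u
        split_ifs at h1 ⊢ <;> linarith
      have htn : 0 ≤ g e * ∑ i ∈ I1, lam i := mul_nonneg (hg e).le (by linarith)
      have hHddn : ∀ u, 0 ≤ dd tl hd g H u := by
        intro u
        refine le_trans ?_ (hHdd u)
        split_ifs
        · exact htn
        · exact le_rfl
      have hHq : g e * ∑ i ∈ I1, lam i ≤ dd tl hd g H q := by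
        have := hHdd q
        rwa [if_pos rfl] at this
      have hHc : cst c H ≤ 9 * ρ := by
        rw [hH, cst_add, cst_mul]
        have := hQc I1
        linarith
      refine ⟨⟨H, hHn, hHddn, ?_⟩, hFes, ?_, hSpρ⟩
      · have : 0 < g e * ∑ i ∈ I1, lam i := mul_pos (hg e) (by linarith)
        linarith
      · have h1 := (mul_le_mul_of_nonneg_right hHq hTq).trans ((hLq H hHn hHddn).trans hHc)
        have h2 : 1 / 16 * (g e * Tq) ≤ (∑ i ∈ I1, lam i) * (g e * Tq) :=
          mul_le_mul_of_nonneg_right (by linarith) (mul_nonneg (hg e).le hTq)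
        have h3 : (∑ i ∈ I1, lam i) * (g e * Tq) = g e * (∑ i ∈ I1, lam i) * Tq := by ring
        linarith
  push Not at hN
  obtain ⟨I3, hI3⟩ : ∃ I3 : Finset (Fin k), I3 = univ.filter fun i => 2 ≤ γ i := ⟨_, rfl⟩
  by_cases hWW : 1 / 8 ≤ ∑ i ∈ I3, lam i
  · left
    have hI32 : I3 ⊆ I2 := by
      intro i hi
      rw [hI3, mem_filter] at hi
      rw [hI2, mem_filter]
      exact ⟨mem_univ i, by linarith [hi.2]⟩
    have h3 : ∑ i ∈ I3, lam i * (γ i - 1) ≤ Ep := by
      rw [hEp]
      exact sum_le_sum_of_subset_of_nonneg hI32 fun i hi _ => (hEp0 i hi).le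
    have h4 : ∑ i ∈ I3, lam i ≤ ∑ i ∈ I3, lam i * (γ i - 1) := by
      refine sum_le_sum fun i hi => ?_
      rw [hI3, mem_filter] at hi
      have h1 := hlam i
      nlinarith [hi.2]
    have h5 : ∑ i ∈ I3, lam i * γ i ≤ 2 * ∑ i ∈ I3, lam i * (γ i - 1) := by
      rw [mul_sum]
      refine sum_le_sum fun i hi => ?_
      rw [hI3, mem_filter] at hi
      have h1 := hlam i
      nlinarith [hi.2]
    have hSpρ : Sp ≤ 200 * ρ := by nlinarith
    have hFes : Fes tl hd g p := ⟨FI I2, hF0 I2, hF4ddn, by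
      rw [hF4dd, if_pos rfl]
      linarith⟩
    obtain ⟨H, hH⟩ : ∃ H : E → ℝ, H = fun f => QI I3 f + 2 * F2 f := ⟨_, rfl⟩
    have hHn : ∀ f, 0 ≤ H f := by
      intro f
      rw [hH]
      have h1 := hQ0 I3 f
      have h2 := hF2n f
      simp only
      linarith
    have hHdd : ∀ u, (if u = q then g e * ∑ i ∈ I3, lam i else 0) ≤ dd tl hd g H u := by
      intro u
      rw [hH, dd_add, dd_mul, hQdd, hF2dd]
      split_ifs <;> linarith
    have htn : 0 ≤ g e * ∑ i ∈ I3, lam i := mul_nonneg (hg e).le (by linarith)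
    have hHddn : ∀ u, 0 ≤ dd tl hd g H u := by
      intro u
      refine le_trans ?_ (hHdd u)
      split_ifs
      · exact htn
      · exact le_rfl
    have hHq : g e * ∑ i ∈ I3, lam i ≤ dd tl hd g H q := by
      have := hHdd q
      rwa [if_pos rfl] at this
    have hHc : cst c H ≤ 3 * ρ := by
      rw [hH, cst_add, cst_mul]
      have := hQc I3
      linarith
    refine ⟨⟨H, hHn, hHddn, ?_⟩, hFes, ?_, hSpρ⟩
    · have : 0 < g e * ∑ i ∈ I3, lam i := mul_pos (hg e) (by linarith)
      linarith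
    · have h1 := (mul_le_mul_of_nonneg_right hHq hTq).trans ((hLq H hHn hHddn).trans hHc)
      have h2 : 1 / 8 * (g e * Tq) ≤ (∑ i ∈ I3, lam i) * (g e * Tq) :=
        mul_le_mul_of_nonneg_right (by linarith) (mul_nonneg (hg e).le hTq)
      have h3 : (∑ i ∈ I3, lam i) * (g e * Tq) = g e * (∑ i ∈ I3, lam i) * Tq := by ring
      linarith
  push Not at hWW
  right
  obtain ⟨I4, hI4⟩ : ∃ I4 : Finset (Fin k), I4 = univ.filter fun i => γ i ≤ 1 / 2 := ⟨_, rfl⟩
  obtain ⟨I5, hI5⟩ : ∃ I5 : Finset (Fin k), I5 = univ.filter fun i => 1 / 2 < γ i ∧ γ i < 2 :=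
    ⟨_, rfl⟩
  have hI4s : ∑ i ∈ I4, lam i ≤ 2 * Em := by
    rw [hEmf, mul_sum]
    refine le_trans (sum_le_sum (g := fun i => 2 * (lam i * max (1 - γ i) 0)) fun i hi => ?_)
      (sum_le_sum_of_subset_of_nonneg (subset_univ I4) fun i _ _ => ?_)
    · rw [hI4, mem_filter] at hi
      have h1 := hlam i
      have h2 := le_max_left (1 - γ i) 0
      nlinarith [hi.2]
    · have := mul_nonneg (hlam i).le (le_max_right (1 - γ i) 0)
      linarith
  have hsplit : ∑ i, lam i = ∑ i ∈ I3, lam i + ∑ i ∈ I4, lam i + ∑ i ∈ I5, lam i := by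
    rw [hI3, hI4, hI5, sum_filter, sum_filter, sum_filter, ← sum_add_distrib, ← sum_add_distrib]
    refine sum_congr rfl fun i _ => ?_
    by_cases h1 : 2 ≤ γ i
    · rw [if_pos h1, if_neg (by linarith), if_neg (by intro h; linarith [h.2])]
      ring
    · by_cases h2 : γ i ≤ 1 / 2
      · rw [if_neg h1, if_pos h2, if_neg (by intro h; linarith [h.1])]
        ring
      · rw [if_neg h1, if_neg h2, if_pos ⟨not_le.1 h2, not_le.1 h1⟩]
        ring
  have hI5s : 1 / 2 ≤ ∑ i ∈ I5, lam i := by
    have : y' e ≤ Nn := by linarith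
    linarith
  obtain ⟨v, hv⟩ : ∃ v : Fin k → ℝ, v = fun i => s i + max (γ i - 1) 0 * Tp + max (1 - γ i) 0 * Sp :=
    ⟨_, rfl⟩
  have hv0 : ∀ i, 0 ≤ v i := by
    intro i
    rw [hv]
    have h1 := hs0 i
    have h2 := mul_nonneg (le_max_right (γ i - 1) 0) hTp
    have h3 := mul_nonneg (le_max_right (1 - γ i) 0) hSp
    simp only
    linarith
  have hvs : ∑ i ∈ I5, lam i * v i ≤ 3 * ρ := by
    refine (sum_le_sum_of_subset_of_nonneg (subset_univ I5)
      fun i _ _ => mul_nonneg (hlam i).le (hv0 i)).trans ?_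
    have h1 : ∑ i, lam i * v i = S + Ep * Tp + Em * Sp := by
      rw [hS, hEpf, hEmf, sum_mul, sum_mul, ← sum_add_distrib, ← sum_add_distrib, hv]
      exact sum_congr rfl fun i _ => by ring
    rw [h1]
    have h2 : Em * Sp ≤ Nn * Sp := mul_le_mul_of_nonneg_right (by linarith) hSp
    linarith
  have hne : I5.Nonempty := by
    by_contra h
    rw [not_nonempty_iff_eq_empty] at h
    rw [h, sum_empty] at hI5s
    linarith
  obtain ⟨i, hi, hvi⟩ : ∃ i ∈ I5, v i ≤ 6 * ρ := by
    by_contra h
    push Not at h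
    have h1 : ∑ i ∈ I5, lam i * (6 * ρ) < ∑ i ∈ I5, lam i * v i :=
      sum_lt_sum_of_nonempty hne fun i hi => mul_lt_mul_of_pos_left (h i hi) (hlam i)
    rw [← sum_mul] at h1
    nlinarith
  rw [hI5, mem_filter] at hi
  have hvi' : s i + max (γ i - 1) 0 * Tp + max (1 - γ i) 0 * Sp ≤ 6 * ρ := by
    rw [hv] at hvi
    exact hvi
  have h1 := hs0 i
  have h2 := mul_nonneg (le_max_right (γ i - 1) 0) hTp
  have h3 := mul_nonneg (le_max_right (1 - γ i) 0) hSp
  have hγi : wt g (e :: P i) = γ i := by rw [hγ]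
  have hsi : sml g c (e :: P i) = s i := by rw [hs]
  rw [max_def, max_def] at hvi'
  refine ⟨P i, (hP i).1, (hP i).2.1, ?_, ?_, ?_, ?_, ?_⟩
  · rw [hγi]
    exact hi.2.1.le
  · rw [hγi]
    exact hi.2.2.le
  · rw [hsi]
    have h4 := hvi
    rw [hv] at h4
    simp only at h4
    linarith
  · rw [hγi]
    intro hlt
    have h4 := hvi
    rw [hv] at h4
    simp only at h4
    rw [max_eq_left (by linarith : (0 : ℝ) ≤ γ i - 1)] at h4
    refine ⟨⟨F2, hF2n, hF2ddn, ?_⟩, ?_⟩
    · rw [hF2dd, if_pos rfl]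
      exact lt_of_lt_of_le (mul_pos (hlam i) (by linarith)) (hEpi i hlt)
    · linarith
  · rw [hγi]
    intro hlt
    have h4 := hvi
    rw [hv] at h4
    simp only at h4
    rw [max_eq_left (by linarith : (0 : ℝ) ≤ 1 - γ i)] at h4
    refine ⟨⟨F3, hF3n, hF3ddn, ?_⟩, ?_⟩
    · have h5 : 0 < lam i * (1 - γ i) := mul_pos (hlam i) (by linarith)
      have h6 := hEmi i hlt
      linarith
    · linarith

end Pool.Agent.L7h80.TV
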