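import Pool.Agent.L7h39.TV.Stm
import Pool.Agent.L7h80.TV.Bas

set_option autoImplicit false

/-!
# Graphs with gains: the decomposition of flows (`S_P1` of helper39)
-/

namespace Pool.Agent.L7h80.TV

open Finset Pool.Agent.L7h39.TV

section subtract

variable {E : Type} [Fintype E]

/-- subtraction of the largest possible multiple of `F` -/
theorem subtract {y F : E → ℝ} (hy : ∀ f, 0 ≤ y f) (hF : ∀ f, 0 ≤ F f)
    (hFy : ∀ f, 0 < F f → 0 < y f) {f₀ : E} (hf₀ : 0 < F f₀) :
    ∃ t : ℝ, 0 < t ∧ (∀ f, 0 ≤ y f - t * F f) ∧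
      (univ.filter fun f => y f - t * F f ≠ 0).card < (univ.filter fun f => y f ≠ 0).card := by
  classical
  obtain ⟨f1, hf1, hmin⟩ := exists_min_image (univ.filter fun f => 0 < F f) (fun f => y f / F f)
    ⟨f₀, mem_filter.2 ⟨mem_univ _, hf₀⟩⟩
  have hf1' : 0 < F f1 := (mem_filter.1 hf1).2
  obtain ⟨t, ht⟩ : ∃ t, t = y f1 / F f1 := ⟨_, rfl⟩
  have ht0 : 0 < t := by
    rw [ht]
    exact div_pos (hFy f1 hf1') hf1'
  refine ⟨t, ht0, fun f => ?_, ?_⟩
  · rcases (hF f).eq_or_lt with h | h
    · rw [← h, mul_zero, sub_zero]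
      exact hy f
    · have h1 := hmin f (mem_filter.2 ⟨mem_univ _, h⟩)
      rw [← ht, le_div_iff₀ h] at h1
      linarith
  · apply card_lt_card
    refine (ssubset_iff_of_subset ?_).2 ⟨f1, ?_, ?_⟩
    · intro f hf
      rw [mem_filter] at hf ⊢
      refine ⟨mem_univ _, fun h => hf.2 ?_⟩
      rcases (hF f).eq_or_lt with h1 | h1
      · rw [← h1, h]
        ring
      · exact absurd h (hFy f h1).ne'
    · exact mem_filter.2 ⟨mem_univ _, (hFy f1 hf1').ne'⟩
    · rw [mem_filter, not_and, not_not]
      intro _
      rw [ht, div_mul_cancel₀ _ hf1'.ne', sub_self]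

end subtract

section follow

variable {E N : Type} [Fintype E] [DecidableEq N] {tl hd : E → Option N} {g : E → ℝ}

theorem wk_last {v w : N} {P : List E} (h : Wk tl hd v P w) :
    (P = [] ∧ v = w) ∨ ∃ f ∈ P, hd f = some w := by
  induction h with
  | nil v => exact Or.inl ⟨rfl, rfl⟩
  | @cons v u w f l h1 h2 h3 ih =>
    right
    rcases ih with ⟨rfl, rfl⟩ | ⟨f', hf', h⟩
    · exact ⟨f, List.mem_cons_self, h2⟩
    · exact ⟨f', List.mem_cons_of_mem _ hf', h⟩

/-- there is an arc with positive flow which leaves `w` -/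
theorem out_arc (hg : ∀ f, 0 < g f) {y : E → ℝ} (hy : ∀ f, 0 ≤ y f) {w : N}
    (h : 0 < dd tl hd g y w ∨ 0 ≤ dd tl hd g y w ∧ ∃ f, 0 < y f ∧ hd f = some w) :
    ∃ f, tl f = some w ∧ 0 < y f := by
  by_contra hcon
  push Not at hcon
  have h1 : ∀ f, (if tl f = some w then y f else 0) = 0 := by
    intro f
    split_ifs with hf
    · exact le_antisymm (hcon f hf) (hy f)
    · rfl
  have h2 : dd tl hd g y w = -∑ f, (if hd f = some w then g f * y f else 0) := by
    unfold dd
    rw [← sum_neg_distrib]
    exact sum_congr rfl fun f _ => by rw [h1, zero_sub]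
  have h3 : ∀ f, 0 ≤ (if hd f = some w then g f * y f else 0) := by
    intro f
    split_ifs
    · exact mul_nonneg (hg f).le (hy f)
    · exact le_rfl
  have h4 : 0 ≤ ∑ f, (if hd f = some w then g f * y f else 0) := sum_nonneg fun f _ => h3 f
  rcases h with h | ⟨h, f, hf, hfw⟩
  · linarith
  · have h5 := single_le_sum (f := fun f => if hd f = some w then g f * y f else 0)
      (fun f _ => h3 f) (mem_univ f)
    rw [if_pos hfw] at h5
    have := mul_pos (hg f) hf
    linarith

/-- Following the flow from `v`. -/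
theorem follow (hg : ∀ f, 0 < g f) {y : E → ℝ} (hy : ∀ f, 0 ≤ y f)
    (hdd : ∀ u, 0 ≤ dd tl hd g y u) {v : N} (hv : 0 < dd tl hd g y v) :
    (∃ (P : List E) (w : N) (s : E), Wk tl hd v P w ∧ P.length ≤ Fintype.card E ∧
      tl s = some w ∧ hd s = none ∧ (∀ f ∈ P, 0 < y f) ∧ 0 < y s) ∨
    ∃ (P : List E) (w : N) (z : List E), Wk tl hd v P w ∧ P.length ≤ Fintype.card E ∧
      Wk tl hd w z w ∧ z.length ≤ Fintype.card E ∧ z ≠ [] ∧ (∀ f ∈ P, 0 < y f) ∧
      ∀ f ∈ z, 0 < y f := by
  classical
  by_cases hs : ∃ (P : List E) (w : N) (s : E), Wk tl hd v P w ∧ P.length ≤ Fintype.card E ∧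
      tl s = some w ∧ hd s = none ∧ (∀ f ∈ P, 0 < y f) ∧ 0 < y s
  · exact Or.inl hs
  right
  have key : ∀ n, n ≤ Fintype.card E + 1 → ∃ (P : List E) (w : N), Wk tl hd v P w ∧
      P.length = n ∧ ∀ f ∈ P, 0 < y f := by
    intro n
    induction n with
    | zero => exact fun _ => ⟨[], v, Wk.nil v, rfl, fun f hf => absurd hf List.not_mem_nil⟩
    | succ n ih =>
      intro hn
      obtain ⟨P, w, h1, h2, h3⟩ := ih (by omega)
      obtain ⟨f, hf, hfy⟩ := out_arc (tl := tl) (hd := hd) hg hy (w := w) (by
        rcases wk_last h1 with ⟨-, h⟩ | ⟨f, hf, h⟩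
        · left
          rw [← h]
          exact hv
        · right
          exact ⟨hdd w, f, h3 f hf, h⟩)
      rcases hh : hd f with _ | u
      · exact absurd ⟨P, w, f, h1, by omega, hf, hh, h3, hfy⟩ hs
      · refine ⟨P ++ [f], u, wk_append h1 (Wk.cons hf hh (Wk.nil u)), ?_, ?_⟩
        · rw [List.length_append, h2, List.length_singleton]
        · intro f' hf'
          rcases List.mem_append.1 hf' with h | h
          · exact h3 f' h
          · rw [List.mem_singleton.1 h]
            exact hfy
  obtain ⟨P, w, h1, h2, h3⟩ := key _ le_rfl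
  have hnd : ¬ P.Nodup := by
    intro h
    have := h.length_le_card
    omega
  obtain ⟨f, P1, P2, P3, rfl⟩ := dup P hnd
  obtain ⟨u, h4, h5⟩ := wk_split h1
  have h6 : f :: (P2 ++ f :: P3) = (f :: P2) ++ (f :: P3) := rfl
  rw [h6] at h5
  obtain ⟨x, h7, h8⟩ := wk_split h5
  have hux : x = u := by
    cases h7 with
    | cons h9 h10 h11 =>
      cases h8 with
      | cons h12 h13 h14 => exact Option.some.inj (h12.symm.trans h9)
  subst hux
  simp only [List.length_append, List.length_cons] at h2
  refine ⟨P1, x, f :: P2, h4, by omega, h7, ?_, by simp, fun f' hf' => h3 f' ?_,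
    fun f' hf' => h3 f' ?_⟩
  · rw [List.length_cons]
    omega
  · exact List.mem_append_left _ hf'
  · apply List.mem_append_right
    rw [h6]
    exact List.mem_append_left _ hf'

end follow

section main

variable {E N : Type} [Fintype E] [DecidableEq E] [DecidableEq N]

/-- the costs of the simple ways to dispose of a unit at `v` -/
def Way (tl hd : E → Option N) (g c : E → ℝ) (v : N) (x : ℝ) : Prop :=
  (∃ (P : List E) (w : N) (s : E), Wk tl hd v P w ∧ P.length ≤ Fintype.card E ∧
    tl s = some w ∧ hd s = none ∧ x = sml g c P + wt g P * c s) ∨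
  (∃ (P : List E) (w : N) (z : List E), Wk tl hd v P w ∧ P.length ≤ Fintype.card E ∧
    Wk tl hd w z w ∧ z.length ≤ Fintype.card E ∧ wt g z < 1 ∧
    x = sml g c P + wt g P * ((1 - wt g z)⁻¹ * sml g c z))

theorem p1_aux (tl hd : E → Option N) (g c : E → ℝ) (v : N) (hg : ∀ f, 0 < g f)
    (hc : ∀ f, 0 ≤ c f) : ∀ (n : ℕ) (y : E → ℝ) (Q : ℝ), (∀ f, 0 ≤ y f) →
    (∀ u, 0 ≤ dd tl hd g y u) → 0 < Q → Q ≤ dd tl hd g y v →
    (univ.filter fun f => y f ≠ 0).card ≤ n → ∃ x, Way tl hd g c v x ∧ Q * x ≤ cst c y := by
  intro n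
  induction n with
  | zero =>
    intro y Q hy hdd hQ hQv hn
    exfalso
    have h0 : ∀ f, y f = 0 := by
      intro f
      by_contra h
      have h1 : f ∈ univ.filter fun f => y f ≠ 0 := mem_filter.2 ⟨mem_univ _, h⟩
      rw [card_eq_zero.1 (Nat.le_zero.1 hn)] at h1
      exact absurd h1 (notMem_empty f)
    have h1 : y = fun _ => 0 := funext h0
    rw [h1, dd_zero] at hQv
    linarith
  | succ n ih =>
    intro y Q hy hdd hQ hQv hn
    -- the step with a way of disposal
    have step : ∀ F : E → ℝ, (∀ f, 0 ≤ F f) → (∀ f, 0 < F f → 0 < y f) → (∃ f, 0 < F f) →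
        (∀ u, dd tl hd g F u = if v = u then 1 else 0) → Way tl hd g c v (cst c F) →
        ∃ x, Way tl hd g c v x ∧ Q * x ≤ cst c y := by
      rintro F hF hFy ⟨f₀, hf₀⟩ hFdd hW
      obtain ⟨t, ht, hle, hcard⟩ := subtract hy hF hFy hf₀
      have hx0 : 0 ≤ cst c F := cst_nonneg hc hF
      have hsub : cst c (fun f => y f - t * F f) = cst c y - t * cst c F := by
        have h1 : (fun f => y f - t * F f) = fun f => y f + (-t) * F f := by
          funext f
          ring
        rw [h1, cst_add, cst_mul]
        ring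
      have hsub0 : 0 ≤ cst c y - t * cst c F := by
        rw [← hsub]
        exact cst_nonneg hc hle
      by_cases htQ : Q ≤ t
      · refine ⟨_, hW, ?_⟩
        have := mul_le_mul_of_nonneg_right htQ hx0
        linarith
      · push Not at htQ
        have hdd1 : ∀ u, dd tl hd g (fun f => y f - t * F f) u =
            dd tl hd g y u - t * (if v = u then 1 else 0) := by
          intro u
          have h1 : (fun f => y f - t * F f) = fun f => y f + (-t) * F f := by
            funext f
            ring
          rw [h1, dd_add, dd_mul, hFdd]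
          ring
        obtain ⟨x', hx', hx'2⟩ := ih (fun f => y f - t * F f) (Q - t) hle (by
          intro u
          rw [hdd1]
          by_cases h : v = u
          · rw [if_pos h, ← h]
            linarith
          · rw [if_neg h, mul_zero, sub_zero]
            exact hdd u) (by linarith) (by
          rw [hdd1, if_pos rfl]
          linarith) (by omega)
        rw [hsub] at hx'2
        rcases le_total (cst c F) x' with h | h
        · refine ⟨_, hW, ?_⟩
          have := mul_le_mul_of_nonneg_left h (by linarith : 0 ≤ Q - t)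
          linarith
        · refine ⟨x', hx', ?_⟩
          have := mul_le_mul_of_nonneg_left h ht.le
          linarith
    rcases follow hg hy hdd (lt_of_lt_of_le hQ hQv) with ⟨P, w, s, h1, h2, h3, h4, h5, h6⟩ |
      ⟨P, w, z, h1, h2, h3, h4, h5, h6, h7⟩
    · -- a sink
      have hwt := wt_pos hg P
      refine step (fun f => vec g P f + wt g P * (if f = s then 1 else 0)) ?_ ?_ ⟨s, ?_⟩ ?_ ?_
      · intro f
        have := vec_nonneg hg P f
        split_ifs <;> linarith
      · intro f hf
        by_cases hfs : f = s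
        · rw [hfs]; exact h6
        · rw [if_neg hfs, mul_zero, add_zero] at hf
          by_contra hcon
          have : f ∉ P := fun h => hcon (h5 f h)
          rw [vec_zero this] at hf
          exact absurd hf (lt_irrefl 0)
      · rw [if_pos rfl]
        have := vec_nonneg hg P s
        linarith
      · intro u
        rw [dd_add, dd_mul, dd_vec tl hd g h1, dd_single, h3, h4]
        simp only [Option.some.injEq, reduceCtorEq, if_false]
        split_ifs <;> ring
      · left
        refine ⟨P, w, s, h1, h2, h3, h4, ?_⟩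
        rw [cst_add, cst_mul, cst_vec]
        congr 2
        unfold cst
        simp only [mul_ite, mul_one, mul_zero]
        rw [sum_ite_eq' univ s, if_pos (mem_univ s)]
    · have hwtz := wt_pos hg z
      have hwt := wt_pos hg P
      obtain ⟨f₀, hf₀⟩ := List.exists_mem_of_ne_nil z h5
      by_cases hz : 1 ≤ wt g z
      · -- the flow around the closed walk can be removed
        obtain ⟨t, ht, hle, hcard⟩ := subtract (F := vec g z) hy (vec_nonneg hg z) (by
          intro f hf
          by_contra hcon
          have : f ∉ z := fun h => hcon (h7 f h)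
          rw [vec_zero this] at hf
          exact absurd hf (lt_irrefl 0)) (vec_pos hg hf₀)
        have h8 : (fun f => y f - t * vec g z f) = fun f => y f + (-t) * vec g z f := by
          funext f
          ring
        have hdd1 : ∀ u, dd tl hd g y u ≤ dd tl hd g (fun f => y f - t * vec g z f) u := by
          intro u
          rw [h8, dd_add, dd_mul, dd_vec tl hd g h3]
          split_ifs
          · nlinarith
          · linarith
        obtain ⟨x', hx', hx'2⟩ := ih (fun f => y f - t * vec g z f) Q hle
          (fun u => (hdd u).trans (hdd1 u)) hQ (hQv.trans (hdd1 v)) (by omega)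
        refine ⟨x', hx', hx'2.trans (cst_mono hc fun f => ?_)⟩
        have := mul_nonneg ht.le (vec_nonneg hg z f)
        linarith
      · push Not at hz
        have hz1 : 0 < 1 - wt g z := by linarith
        have hzi : 0 < (1 - wt g z)⁻¹ := inv_pos.2 hz1
        refine step (fun f => vec g P f + (wt g P * (1 - wt g z)⁻¹) * vec g z f) ?_ ?_ ⟨f₀, ?_⟩ ?_ ?_
        · intro f
          have h8 := vec_nonneg hg P f
          have h9 := mul_nonneg (mul_pos hwt hzi).le (vec_nonneg hg z f)
          linarith
        · intro f hf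
          by_contra hcon
          have h8 : f ∉ P := fun h => hcon (h6 f h)
          have h9 : f ∉ z := fun h => hcon (h7 f h)
          rw [vec_zero h8, vec_zero h9, mul_zero, add_zero] at hf
          exact absurd hf (lt_irrefl 0)
        · have h8 := vec_nonneg hg P f₀
          have h9 := mul_pos (mul_pos hwt hzi) (vec_pos hg hf₀)
          linarith
        · intro u
          rw [dd_add, dd_mul, dd_vec tl hd g h1, dd_vec tl hd g h3]
          have h8 : (1 - wt g z)⁻¹ * (1 - wt g z) = 1 := inv_mul_cancel₀ hz1.ne'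
          by_cases hwu : w = u
          · rw [if_pos hwu, if_pos hwu, if_pos hwu]
            calc (if v = u then (1 : ℝ) else 0) - wt g P + wt g P * (1 - wt g z)⁻¹ * (1 - wt g z) =
                (if v = u then (1 : ℝ) else 0) - wt g P +
                  wt g P * ((1 - wt g z)⁻¹ * (1 - wt g z)) := by ring
              _ = _ := by rw [h8]; ring
          · rw [if_neg hwu, if_neg hwu, if_neg hwu]
            ring
        · right
          refine ⟨P, w, z, h1, h2, h3, h4, hz, ?_⟩
          rw [cst_add, cst_mul, cst_vec, cst_vec]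
          ring

end main

theorem s_P1 : S_P1 := by
  intro E N _ _ _ tl hd g c y v Q hg hc hy hdd hQ hQv
  obtain ⟨x, hx, hxQ⟩ := p1_aux tl hd g c v hg hc _ y Q hy hdd hQ hQv le_rfl
  rcases hx with ⟨P, w, s, h1, h2, h3, h4, rfl⟩ | ⟨P, w, z, h1, h2, h3, h4, h5, rfl⟩
  · exact Or.inl ⟨P, w, s, h1, h2, h3, h4, hxQ⟩
  · exact Or.inr ⟨P, w, z, h1, h2, h3, h4, h5, hxQ⟩

end Pool.Agent.L7h80.TV
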