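import Pool.Agent.L7h39.TV.Stm2

set_option autoImplicit false

/-!
# From graphs with gains to matrices with two entries per row
-/

namespace Pool.Agent.L7h80.TV

open Matrix Pool.Agent.Y648.CS.V Pool.Agent.L7h39.TV

/-- The contribution of an arc to the net outflow at `u`. -/
noncomputable def cb {n : ℕ} (t h : Option (Fin n × Bool)) (g y : ℝ) (u : Fin n × Bool) : ℝ :=
  (if t = some u then y else 0) - (if h = some u then g * y else 0)

/-- The sign of a Boolean. -/
noncomputable def sg (s : Bool) : ℝ := if s then 1 else -1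

lemma sg_ex (a : ℝ) (ha : a ≠ 0) : ∃ (s : Bool) (w : ℝ), 0 < w ∧ a = sg s * w := by
  rcases lt_or_gt_of_ne ha with h | h
  · exact ⟨false, -a, by linarith, by simp [sg]⟩
  · exact ⟨true, a, h, by simp [sg]⟩

/-- A row as a pair of arcs. -/
lemma row_ex {n : ℕ} (r : Fin n → ℝ) (hr : (Finset.univ.filter fun j => r j ≠ 0).card ≤ 2) :
    ∃ (t h : Bool → Option (Fin n × Bool)) (g m : Bool → ℝ), (∀ B, 0 < g B) ∧ (∀ B, 0 < m B) ∧
      (∀ (x : ℝ) (j : Fin n) (s : Bool),
        ∑ B, cb (t B) (h B) (g B) (x / m B) (j, s) = if s then r j * x else -(r j * x)) ∧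
      (∀ (y : Bool → ℝ) (j : Fin n),
        (∑ B, cb (t B) (h B) (g B) (y B) (j, true)) -
          (∑ B, cb (t B) (h B) (g B) (y B) (j, false)) = r j * ∑ B, m B * y B) := by
  classical
  obtain h0 | h1 | h2 : (Finset.univ.filter fun j => r j ≠ 0).card = 0 ∨
      (Finset.univ.filter fun j => r j ≠ 0).card = 1 ∨
      (Finset.univ.filter fun j => r j ≠ 0).card = 2 := by omega
  · -- no entry
    have hz : ∀ j, r j = 0 := by
      intro j
      by_contra hj
      have := Finset.card_eq_zero.1 h0
      have hm : j ∈ (Finset.univ.filter fun j => r j ≠ 0) := by simp [hj]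
      rw [this] at hm
      simp at hm
    refine ⟨fun _ => none, fun _ => none, fun _ => 1, fun _ => 1, fun _ => one_pos,
      fun _ => one_pos, ?_, ?_⟩
    · intro x j s
      simp [cb, hz]
    · intro y j
      simp [cb, hz]
  · -- one entry
    obtain ⟨j1, hj1⟩ := Finset.card_eq_one.1 h1
    have ha : r j1 ≠ 0 := by
      have : j1 ∈ (Finset.univ.filter fun j => r j ≠ 0) := by rw [hj1]; simp
      simpa using this
    have hz : ∀ j, j ≠ j1 → r j = 0 := by
      intro j hj
      by_contra hn
      have hm : j ∈ (Finset.univ.filter fun j => r j ≠ 0) := by simp [hn]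
      rw [hj1] at hm
      exact hj (by simpa using hm)
    obtain ⟨s1, w1, hw1, hr1⟩ := sg_ex _ ha
    refine ⟨fun B => if B then none else some (j1, s1),
      fun B => if B then some (j1, !s1) else none, fun _ => 1, fun _ => w1⁻¹, fun _ => one_pos,
      fun _ => inv_pos.2 hw1, ?_, ?_⟩
    · intro x j s
      by_cases hj : j = j1
      · subst hj
        rw [hr1]
        cases s <;> cases s1 <;> simp [cb, sg] <;> ring
      · have hj' : j1 ≠ j := fun h => hj h.symm
        simp [cb, hz j hj, hj']
    · intro y j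
      by_cases hj : j = j1
      · subst hj
        rw [hr1]
        cases s1 <;> simp [cb, sg] <;> field_simp <;> ring
      · have hj' : j1 ≠ j := fun h => hj h.symm
        simp [cb, hz j hj, hj']
  · -- two entries
    obtain ⟨j1, j2, hne, hjj⟩ := Finset.card_eq_two.1 h2
    have ha : r j1 ≠ 0 := by
      have : j1 ∈ (Finset.univ.filter fun j => r j ≠ 0) := by rw [hjj]; simp
      simpa using this
    have hb : r j2 ≠ 0 := by
      have : j2 ∈ (Finset.univ.filter fun j => r j ≠ 0) := by rw [hjj]; simp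
      simpa using this
    have hz : ∀ j, j ≠ j1 → j ≠ j2 → r j = 0 := by
      intro j hj hj2
      by_contra hn
      have hm : j ∈ (Finset.univ.filter fun j => r j ≠ 0) := by simp [hn]
      rw [hjj] at hm
      simp at hm
      tauto
    obtain ⟨s1, w1, hw1, hr1⟩ := sg_ex _ ha
    obtain ⟨s2, w2, hw2, hr2⟩ := sg_ex _ hb
    have hne' : j2 ≠ j1 := fun h => hne h.symm
    refine ⟨fun B => if B then some (j2, s2) else some (j1, s1),
      fun B => if B then some (j1, !s1) else some (j2, !s2),
      fun B => if B then w1 / w2 else w2 / w1, fun B => if B then w2⁻¹ else w1⁻¹, ?_, ?_, ?_, ?_⟩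
    · intro B
      cases B <;> simp <;> positivity
    · intro B
      cases B <;> simp <;> positivity
    · intro x j s
      by_cases hj : j = j1
      · subst hj
        rw [hr1]
        cases s <;> cases s1 <;> simp [cb, sg, hne'] <;> field_simp
      · by_cases hj2 : j = j2
        · subst hj2
          rw [hr2]
          cases s <;> cases s2 <;> simp [cb, sg, hne] <;> field_simp
        · have hj' : j1 ≠ j := fun h => hj h.symm
          have hj2' : j2 ≠ j := fun h => hj2 h.symm
          simp [cb, hz j hj hj2, hj', hj2']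
    · intro y j
      by_cases hj : j = j1
      · subst hj
        rw [hr1]
        cases s1 <;> simp [cb, sg, hne'] <;> field_simp <;> ring
      · by_cases hj2 : j = j2
        · subst hj2
          rw [hr2]
          cases s2 <;> simp [cb, sg, hne] <;> field_simp <;> ring
        · have hj' : j1 ≠ j := fun h => hj h.symm
          have hj2' : j2 ≠ j := fun h => hj2 h.symm
          simp [cb, hz j hj hj2, hj', hj2']

lemma mem_lker {m n : ℕ} (A : Matrix (Fin m) (Fin n) ℝ) (x : Fin m → ℝ) :
    x ∈ lker A ↔ ∀ j, ∑ i, A i j * x i = 0 := by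
  unfold lker
  rw [LinearMap.mem_ker]
  constructor
  · intro h j
    have := congrFun h j
    simp only [Matrix.vecMulLinear_apply, Matrix.vecMul, dotProduct, Pi.zero_apply] at this
    rw [← this]
    exact Finset.sum_congr rfl fun i _ => mul_comm _ _
  · intro h
    funext j
    simp only [Matrix.vecMulLinear_apply, Matrix.vecMul, dotProduct, Pi.zero_apply]
    rw [← h j]
    exact Finset.sum_congr rfl fun i _ => mul_comm _ _

/-- The circulations through an arc, for matrices. -/
theorem lcp (hcore : S_CORE) : S_LCP := by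
  classical
  obtain ⟨Q, hQ⟩ := hcore
  refine ⟨Q.comp (2 * Polynomial.X) + 1, ?_⟩
  intro K n A α β e hA hα hβ
  have hev : (Q.comp (2 * Polynomial.X) + 1).eval K = Q.eval (K * 2) + 1 := by
    simp [Polynomial.eval_comp, mul_comm]
  rw [hev]
  choose t h g m hg hm hF hB using fun i => row_ex (A i) (hA i)
  obtain ⟨D, hDc, hD0, hDl, hDu⟩ := hQ (Fin K × Bool) (Fin n × Bool) (fun f => t f.1 f.2)
    (fun f => h f.1 f.2) (fun f => g f.1 f.2) (fun f => m f.1 f.2 * α f.1)
    (fun f => m f.1 f.2 * β f.1) (e, false) (fun f => hg _ _)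
    (fun f => mul_nonneg (hm _ _).le (hα _)) (fun f => mul_nonneg (hm _ _).le (hβ _))
  have hcard : Fintype.card (Fin K × Bool) = K * 2 := by simp
  rw [hcard] at hDc hDl hDu
  set μ : ℝ := m e false with hμ
  have hμ0 : 0 < μ := hm e false
  have hdd : ∀ (y : Fin K × Bool → ℝ) (u : Fin n × Bool),
      dd (fun f : Fin K × Bool => t f.1 f.2) (fun f => h f.1 f.2) (fun f => g f.1 f.2) y u =
        ∑ i, ∑ B, cb (t i B) (h i B) (g i B) (y (i, B)) u := by
    intro y u
    unfold dd
    rw [Fintype.sum_prod_type]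
    rfl
  have h2Q : (0 : ℝ) < 2 ^ Q.eval (K * 2) := by positivity
  refine ⟨D.image fun p => (p.1 / μ, p.2 / μ), ?_, ?_, ?_, ?_⟩
  · exact (Finset.card_image_le).trans (hDc.trans (Nat.le_succ _))
  · intro p hp
    obtain ⟨p', hp', rfl⟩ := Finset.mem_image.1 hp
    exact ⟨div_nonneg (hD0 p' hp').1 hμ0.le, div_nonneg (hD0 p' hp').2 hμ0.le⟩
  · intro θ hθ x hx hx0 hxe
    rw [mem_lker] at hx
    obtain ⟨p, hp, hpl⟩ := hDl θ hθ (fun f => μ * x f.1 / m f.1 f.2)
      (fun f => div_nonneg (mul_nonneg hμ0.le (hx0 _)) (hm _ _).le) (by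
        intro u
        rw [hdd]
        obtain ⟨j, s⟩ := u
        have : ∀ i, ∑ B, cb (t i B) (h i B) (g i B) (μ * x i / m i B) (j, s) =
            if s then A i j * (μ * x i) else -(A i j * (μ * x i)) := fun i => hF i (μ * x i) j s
        rw [Finset.sum_congr rfl fun i _ => this i]
        have h1 : ∑ i, A i j * (μ * x i) = 0 := by
          have : ∑ i, A i j * (μ * x i) = μ * ∑ i, A i j * x i := by
            rw [Finset.mul_sum]
            exact Finset.sum_congr rfl fun i _ => by ring
          rw [this, hx j, mul_zero]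
        cases s
        · simp only [Bool.false_eq_true, if_false, Finset.sum_neg_distrib, h1, neg_zero]
        · simpa using h1) (by
        change μ * x e / m e false = 1
        rw [hxe, mul_one]
        exact div_self hμ0.ne')
    refine ⟨(p.1 / μ, p.2 / μ), Finset.mem_image_of_mem _ hp, ?_⟩
    have hcost : ∑ f : Fin K × Bool, (m f.1 f.2 * α f.1 + θ * (m f.1 f.2 * β f.1)) *
        (μ * x f.1 / m f.1 f.2) = 2 * μ * ∑ i, (α i + θ * β i) * x i := by
      rw [Fintype.sum_prod_type, Finset.mul_sum]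
      refine Finset.sum_congr rfl fun i _ => ?_
      rw [Fintype.sum_bool]
      have h1 := (hm i true).ne'
      have h2 := (hm i false).ne'
      field_simp
      ring
    rw [hcost] at hpl
    have hmx : max (p.1 / μ) (θ * (p.2 / μ)) = max p.1 (θ * p.2) / μ := by
      rw [← mul_div_assoc, max_div_div_right hμ0.le]
    change max (p.1 / μ) (θ * (p.2 / μ)) ≤ _
    rw [hmx, div_le_iff₀ hμ0, pow_succ]
    linarith
  · intro p hp
    obtain ⟨p', hp', rfl⟩ := Finset.mem_image.1 hp
    obtain ⟨y, hy0, hyd, hye, hya, hyb⟩ := hDu p' hp'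
    set x : Fin K → ℝ := fun i => ∑ B, m i B * y (i, B) with hx
    have hx0 : ∀ i, 0 ≤ x i := fun i => Finset.sum_nonneg fun B _ =>
      mul_nonneg (hm i B).le (hy0 _)
    have hxe : μ ≤ x e := by
      have h1 : m e false * y (e, false) ≤ x e := by
        refine Finset.single_le_sum (f := fun B => m e B * y (e, B)) (fun B _ =>
          mul_nonneg (hm e B).le (hy0 _)) (Finset.mem_univ false)
      have h2 : m e false * 1 ≤ m e false * y (e, false) :=
        mul_le_mul_of_nonneg_left hye (hm e false).le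
      rw [hμ]
      linarith
    have hxe0 : 0 < x e := lt_of_lt_of_le hμ0 hxe
    have hxk : ∀ j, ∑ i, A i j * x i = 0 := by
      intro j
      have h1 := hyd (j, true)
      have h2 := hyd (j, false)
      rw [hdd] at h1 h2
      have h3 : ∑ i, A i j * x i = ∑ i, ((∑ B, cb (t i B) (h i B) (g i B) (y (i, B)) (j, true)) -
          (∑ B, cb (t i B) (h i B) (g i B) (y (i, B)) (j, false))) :=
        Finset.sum_congr rfl fun i _ => (hB i (fun B => y (i, B)) j).symm
      rw [h3, Finset.sum_sub_distrib, h1, h2, sub_zero]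
    have hc : ∀ (γ : Fin K → ℝ), (∀ i, 0 ≤ γ i) → ∀ T : ℝ, 0 ≤ T →
        ∑ f : Fin K × Bool, (m f.1 f.2 * γ f.1) * y f ≤ 2 ^ Q.eval (K * 2) * T →
        ∑ i, γ i * ((x e)⁻¹ * x i) ≤ 2 ^ (Q.eval (K * 2) + 1) * (T / μ) := by
      intro γ hγ T hT hle
      have h1 : ∑ f : Fin K × Bool, (m f.1 f.2 * γ f.1) * y f = ∑ i, γ i * x i := by
        rw [Fintype.sum_prod_type]
        refine Finset.sum_congr rfl fun i _ => ?_
        rw [hx, Finset.mul_sum]
        exact Finset.sum_congr rfl fun B _ => by ring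
      rw [h1] at hle
      have h2 : ∑ i, γ i * ((x e)⁻¹ * x i) = (x e)⁻¹ * ∑ i, γ i * x i := by
        rw [Finset.mul_sum]
        exact Finset.sum_congr rfl fun B _ => by ring
      have h3 : 0 ≤ ∑ i, γ i * x i := Finset.sum_nonneg fun i _ => mul_nonneg (hγ i) (hx0 i)
      have h4 : (x e)⁻¹ ≤ μ⁻¹ := inv_anti₀ hμ0 hxe
      rw [h2]
      calc (x e)⁻¹ * ∑ i, γ i * x i ≤ μ⁻¹ * ∑ i, γ i * x i := mul_le_mul_of_nonneg_right h4 h3
        _ ≤ μ⁻¹ * (2 ^ Q.eval (K * 2) * T) := mul_le_mul_of_nonneg_left hle (inv_pos.2 hμ0).le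
        _ = 2 ^ Q.eval (K * 2) * (T / μ) := by rw [div_eq_mul_inv]; ring
        _ ≤ 2 ^ (Q.eval (K * 2) + 1) * (T / μ) := by
          refine mul_le_mul_of_nonneg_right ?_ (div_nonneg hT hμ0.le)
          rw [pow_succ]
          linarith
    refine ⟨fun i => (x e)⁻¹ * x i, ?_, ?_, ?_, ?_, ?_⟩
    · rw [mem_lker]
      intro j
      have : ∑ i, A i j * ((x e)⁻¹ * x i) = (x e)⁻¹ * ∑ i, A i j * x i := by
        rw [Finset.mul_sum]
        exact Finset.sum_congr rfl fun B _ => by ring
      rw [this, hxk j, mul_zero]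
    · intro i
      exact mul_nonneg (inv_pos.2 hxe0).le (hx0 i)
    · exact inv_mul_cancel₀ hxe0.ne'
    · exact hc α hα p'.1 (hD0 p' hp').1 hya
    · exact hc β hβ p'.2 (hD0 p' hp').2 hyb

end Pool.Agent.L7h80.TV
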